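import Pool.Agent.Lib.MP_107652_al.Final
import Pool.Agent.Lib.MP_107652_al.ExpHom
import Pool.Agent.Lib.MP_107652_al.HeisDiv
import Pool.Agent.Lib.MP_107652_al.Reps
import Pool.Agent.Lib.MP_107652_al.LemS
import Pool.Agent.Lib.MP_107652_al.PairEx
import Pool.Agent.Lib.MP_107652_al.LemB
import Pool.Agent.Lib.MP_107652_al.T45
import Pool.Agent.Lib.MP_107652_al.T3Two
import Pool.Agent.Lib.MP_107652_al.T3
import Pool.Agent.Lib.MP_107652_al.Girth

/-!
# Weighted girth of even Artin groups on complete graphs

Let `Γ` be a complete labelled graph all of whose labels are even, and `Λ` any labelled graph all of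
whose labels are even. If the Artin groups of `Γ` and `Λ` are isomorphic then `Γ` and `Λ` have the
same weighted girth. The definitions (`LGraph`, `Artin`, `wgirth`, `IsEven`) are in
`Pool/Agent/Lib/MP_107652_al/Defs.lean`.
-/

set_option autoImplicit false

namespace Pool.Agent.Results.MP_107652_al.EvenComplete

open WGirth

/-- **Main theorem.** -/
theorem result (V W : Type) [Finite V] [Finite W] (Γ : LGraph V) (Λ : LGraph W)
    (hΓ : IsEven Γ) (hΛ : IsEven Λ) (hc : Γ.graph = ⊤) (e : Artin Γ ≃* Artin Λ) :
    wgirth Γ = wgirth Λ := by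
  classical
  haveI := Fintype.ofFinite V
  haveI := Fintype.ofFinite W
  refine main_of (pairEx expHom starRep freeRep lemS heisDiv) (t3 starB det3 (t3Two starB ind3 cardEq))
    (t4 starB ind3 cardEq) (t5 starB) cardEq girthSmall girthLow girthUp Γ Λ hΓ hΛ ?_ ⟨e⟩
  intro v w hvw
  rw [hc]
  exact hvw

end Pool.Agent.Results.MP_107652_al.EvenComplete
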