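import Pool.Agent.Lib.MP_107652_al.ExpHom
import Pool.Agent.Lib.MP_107652_al.Twin.AdjIso
import Pool.Agent.Lib.MP_107652_al.Twin.ClassInv
import Pool.Agent.Lib.MP_107652_al.Twin.DegLe
import Pool.Agent.Lib.MP_107652_al.Twin.DomM
import Pool.Agent.Lib.MP_107652_al.Twin.DomN
import Pool.Agent.Lib.MP_107652_al.Twin.DomTr
import Pool.Agent.Lib.MP_107652_al.Twin.GoodEx
import Pool.Agent.Lib.MP_107652_al.Twin.HeisGen
import Pool.Agent.Lib.MP_107652_al.Twin.LabelEq
import Pool.Agent.Lib.MP_107652_al.Twin.PermEx
import Pool.Agent.Lib.MP_107652_al.Twin.PiEx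
import Pool.Agent.Lib.MP_107652_al.Twin.PreEx
import Pool.Agent.Lib.MP_107652_al.Twin.RelL
import Pool.Agent.Lib.MP_107652_al.Twin.RepP
import Pool.Agent.Lib.MP_107652_al.Twin.ResNil
import Pool.Agent.Lib.MP_107652_al.Twin.Rigid
import Pool.Agent.Lib.MP_107652_al.Twin.SGen
import Pool.Agent.Lib.MP_107652_al.Twin.StarEx
import Pool.Agent.Lib.MP_107652_al.Twin.Transport
import Pool.Agent.Lib.MP_107652_al.Twin.UnitCol
import Pool.Agent.Lib.MP_107652_al.Twin.UnitCore
import Pool.Agent.Lib.MP_107652_al.Twin.UnitSym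
import Pool.Agent.Lib.MP_107652_al.Twin.WgIso

/-!
# Weighted girth and rigidity of even Artin groups

Let `Γ` and `Λ` be finite labelled graphs all of whose labels are even. Suppose that in `Γ` two
adjacent vertices with the same closed neighbourhood have no further neighbours (for example: `Γ`
has no triangle, or `Γ` has no two adjacent vertices with the same closed neighbourhood). If the
Artin groups of `Γ` and `Λ` are isomorphic, then `Γ` and `Λ` have the same weighted girth; moreover
`Γ` and `Λ` are isomorphic as labelled graphs. The definitions (`LGraph`, `Artin`, `wgirth`,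
`IsEven`) are in `Pool/Agent/Lib/MP_107652_al/Defs.lean`.
-/

set_option autoImplicit false

namespace Pool.Agent.Results.MP_107652_al.EvenRigid

open WGirth WGTwin

/-- `a` and `b` have the same closed neighbourhood. -/
def SameStar {V : Type} (Γ : LGraph V) (a b : V) : Prop :=
  ∀ c, (c = a ∨ Γ.graph.Adj a c) ↔ (c = b ∨ Γ.graph.Adj b c)

/-- Two adjacent vertices with the same closed neighbourhood have no further neighbours. -/
def NoBigTwins {V : Type} (Γ : LGraph V) : Prop :=
  ∀ a b, Γ.graph.Adj a b → SameStar Γ a b → ∀ c, Γ.graph.Adj a c → c = b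

/-- Every graph without triangles satisfies the condition. -/
theorem noBigTwins_of_triangleFree {V : Type} (Γ : LGraph V)
    (h : ∀ a b c, Γ.graph.Adj a b → Γ.graph.Adj b c → ¬ Γ.graph.Adj a c) : NoBigTwins Γ := by
  intro a b hab hs c hac
  by_contra hcb
  rcases (hs c).mp (Or.inr hac) with h1 | h1
  · exact hcb h1
  · exact h a b c hab h1 hac

/-- **Main theorem.** -/
theorem result (V W : Type) [Finite V] [Finite W] (Γ : LGraph V) (Λ : LGraph W)
    (hΓ : IsEven Γ) (hΛ : IsEven Λ) (hT : NoBigTwins Γ) (e : Artin Γ ≃* Artin Λ) :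
    wgirth Γ = wgirth Λ ∧
      ∃ π : V ≃ W, (∀ a b, Γ.graph.Adj a b ↔ Λ.graph.Adj (π a) (π b)) ∧
        ∀ a b, Γ.graph.Adj a b → Λ.label s(π a, π b) = Γ.label s(a, b) := by
  classical
  haveI := Fintype.ofFinite V
  haveI := Fintype.ofFinite W
  have hT' : TwinsIsolated Γ := by
    intro a b hab htw
    apply hT a b hab
    intro c
    constructor
    · rintro (h | h)
      · subst h
        exact Or.inr hab.symm
      · rcases htw.1 c h with h1 | h1
        · exact Or.inl h1
        · exact Or.inr h1.symm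
    · rintro (h | h)
      · subst h
        exact Or.inr hab
      · rcases htw.2 c h with h1 | h1
        · exact Or.inl h1
        · exact Or.inr h1.symm
  have hPre : PreEx := preEx heisGen (starEx goodEx relL cTL resNil sGen repP)
  have hTrans : Transport := transport permEx (domM degLe permEx) (domN domTr) (adjIso domTr)
  have hCI : ClassInv := classInv domTr
  have hPi : PiEx := piEx (unitCol (unitCore hCI domTr) hCI domTr) (unitSym hCI) tDsymm domTr
  obtain ⟨π, h1, h2⟩ := rigid hPre hTrans hPi (labelEq hCI domTr) V W Γ Λ hΓ hΛ hT' ⟨e⟩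
  exact ⟨wgIso V W Γ Λ π h1 h2, π, h1, h2⟩

end Pool.Agent.Results.MP_107652_al.EvenRigid
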